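import Mathlib

set_option autoImplicit false

open MeasureTheory

namespace Pool.Agent.Results.MP_db83b6_pr.SpindleNotPSD

/-- `E_n`: the pairs `i < j` of indices. -/
abbrev Pairs (n : ℕ) : Type := {p : Fin n × Fin n // p.1 < p.2}

/-- `TCF_n`: the tail correlation functions on `n` points. -/
def TCF (n : ℕ) : Set (Pairs n → ℝ) :=
  {χ | ∃ (Ω : Type) (_ : MeasurableSpace Ω) (P : Measure Ω) (_ : IsProbabilityMeasure P)
    (A : Fin n → Set Ω), (∀ i, MeasurableSet (A i)) ∧ (∀ i, (P (A i)).toReal = 1 / n) ∧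
      ∀ p : Pairs n, χ p = n * (P (A p.1.1 ∩ A p.1.2)).toReal}

/-- The linear form `⟨c, x⟩ = ∑_{i<j} c_ij x_ij`. -/
def form {n : ℕ} (c x : Pairs n → ℝ) : ℝ := ∑ p, c p * x p

/-- The inequality `⟨c, x⟩ ≥ d` defines a facet of `TCF_n`: it is valid on `TCF_n` and the set of
points of `TCF_n` where equality holds has dimension `|E_n| - 1`. -/
def FacetDefining {n : ℕ} (c : Pairs n → ℝ) (d : ℝ) : Prop :=
  c ≠ 0 ∧ (∀ x ∈ TCF n, d ≤ form c x) ∧
    Module.finrank ℝ (vectorSpan ℝ {x | x ∈ TCF n ∧ form c x = d}) + 1 =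
      Fintype.card (Pairs n)

/-- The vertex `v_0 = (0, ..., 0)`. -/
def v0 (n : ℕ) : Pairs n → ℝ := fun _ => 0

/-- The vertex `v_1 = (1, ..., 1)`. -/
def v1 (n : ℕ) : Pairs n → ℝ := fun _ => 1

/-- `TCF_n(v_0, v_1)`: the polytope cut out by the facet-defining inequalities of `TCF_n` for the
facets that contain `v_0` or `v_1`. -/
def Spindle (n : ℕ) : Set (Pairs n → ℝ) :=
  {x | ∀ (c : Pairs n → ℝ) (d : ℝ), FacetDefining c d →
    (form c (v0 n) = d ∨ form c (v1 n) = d) → d ≤ form c x}

/-- The symmetric matrix `X(x)` with unit diagonal and off-diagonal entries `x_ij`. -/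
def X {n : ℕ} (x : Pairs n → ℝ) : Matrix (Fin n) (Fin n) ℝ :=
  Matrix.of fun i j => if h : i < j then x ⟨(i, j), h⟩ else if h : j < i then x ⟨(j, i), h⟩ else 1

/-- `PSD_n`: the points `x` for which the matrix `X(x)` is positive semidefinite. -/
def PSD (n : ℕ) : Set (Pairs n → ℝ) := {x | (X x).PosSemidef}

/-- The point with `x_in = 1/2` for `i < n` and all other coordinates `0`. -/
noncomputable def starPt (m : ℕ) : Pairs (m + 1) → ℝ :=
  fun p => if p.1.2 = Fin.last m then 1 / 2 else 0

/-- The uniform probability measure on `Fin (m+1) × Fin m`. -/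
noncomputable def unif (m : ℕ) : Measure (Fin (m + 1) × Fin m) :=
  (ENNReal.ofReal (((m : ℝ) + 1) * m)⁻¹) • Measure.count

theorem unif_apply (m : ℕ) (S : Finset (Fin (m + 1) × Fin m)) :
    (unif m (S : Set (Fin (m + 1) × Fin m))).toReal = (((m : ℝ) + 1) * m)⁻¹ * S.card := by
  unfold unif
  rw [Measure.smul_apply, Measure.count_apply_finset, smul_eq_mul, ENNReal.toReal_mul,
    ENNReal.toReal_ofReal (by positivity), ENNReal.toReal_natCast]

theorem unif_prob (m : ℕ) (hm : 1 ≤ m) : IsProbabilityMeasure (unif m) := by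
  refine ⟨?_⟩
  have hfin : unif m Set.univ ≠ ⊤ := by
    unfold unif
    rw [Measure.smul_apply, smul_eq_mul]
    exact ENNReal.mul_ne_top ENNReal.ofReal_ne_top (measure_ne_top _ _)
  have h := unif_apply m Finset.univ
  rw [Finset.coe_univ, Finset.card_univ] at h
  have hm0 : (0 : ℝ) < m := by exact_mod_cast hm
  have h1 : (unif m Set.univ).toReal = 1 := by
    rw [h, Fintype.card_prod, Fintype.card_fin, Fintype.card_fin]
    push_cast
    field_simp
  rw [← ENNReal.ofReal_toReal hfin, h1, ENNReal.ofReal_one]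

/-- Sets of `m` points in `Fin (m+1) × Fin m` give points of `TCF_(m+1)`. -/
theorem mem_TCF (m : ℕ) (hm : 1 ≤ m) (A : Fin (m + 1) → Finset (Fin (m + 1) × Fin m))
    (hA : ∀ i, (A i).card = m) (x : Pairs (m + 1) → ℝ)
    (hx : ∀ p : Pairs (m + 1), x p = ((A p.1.1 ∩ A p.1.2).card : ℝ) / m) : x ∈ TCF (m + 1) := by
  have hm0 : (0 : ℝ) < m := by exact_mod_cast hm
  refine ⟨Fin (m + 1) × Fin m, inferInstance, unif m, unif_prob m hm, fun i => (A i : Set _),
    fun i => (A i).measurableSet, fun i => ?_, fun p => ?_⟩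
  · rw [unif_apply, hA]
    push_cast
    field_simp
  · rw [← Finset.coe_inter, unif_apply, hx]
    push_cast
    field_simp

/-- The events showing that `(1 - s) v_1 + s x` lies in `TCF_n`. -/
def A1 (k : ℕ) (i : Fin (k + 2)) : Finset (Fin (k + 2) × Fin (k + 1)) :=
  Fin.lastCases ({0} ×ˢ Finset.univ)
    (fun j => ({0} ×ˢ (Finset.univ.erase j)) ∪ ({1} ×ˢ {j})) i

/-- The events showing that `s x` lies in `TCF_n`. -/
def A0 (k : ℕ) (i : Fin (k + 2)) : Finset (Fin (k + 2) × Fin (k + 1)) :=
  Fin.lastCases ({0} ×ˢ Finset.univ)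
    (fun j => ({0} ×ˢ {j}) ∪ ({j.succ} ×ˢ (Finset.univ.erase j))) i

theorem A1_last (k : ℕ) : A1 k (Fin.last _) = {0} ×ˢ Finset.univ := by
  simp [A1]

theorem A1_cast (k : ℕ) (j : Fin (k + 1)) :
    A1 k j.castSucc = ({0} ×ˢ (Finset.univ.erase j)) ∪ ({1} ×ˢ {j}) := by
  simp [A1]

theorem A0_last (k : ℕ) : A0 k (Fin.last _) = {0} ×ˢ Finset.univ := by
  simp [A0]

theorem A0_cast (k : ℕ) (j : Fin (k + 1)) :
    A0 k j.castSucc = (({0} : Finset (Fin (k + 2))) ×ˢ ({j} : Finset (Fin (k + 1)))) ∪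
      ({j.succ} ×ˢ (Finset.univ.erase j)) := by
  simp [A0]

theorem card_A1 (k : ℕ) (i : Fin (k + 2)) : (A1 k i).card = k + 1 := by
  induction i using Fin.lastCases with
  | last => rw [A1_last]; simp
  | cast j =>
    rw [A1_cast, Finset.card_union_of_disjoint]
    · simp
    · rw [Finset.disjoint_left]
      rintro ⟨a, b⟩ h1 h2
      simp only [Finset.mem_product, Finset.mem_singleton] at h1 h2
      have := h1.1.symm.trans h2.1
      simp at this

theorem card_A0 (k : ℕ) (i : Fin (k + 2)) : (A0 k i).card = k + 1 := by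
  induction i using Fin.lastCases with
  | last => rw [A0_last]; simp
  | cast j =>
    rw [A0_cast, Finset.card_union_of_disjoint]
    · simp; omega
    · rw [Finset.disjoint_left]
      rintro ⟨a, b⟩ h1 h2
      simp only [Finset.mem_product, Finset.mem_singleton] at h1 h2
      have := h1.1.symm.trans h2.1
      exact (Fin.succ_ne_zero j) this.symm

theorem inter_A1_last (k : ℕ) (i : Fin (k + 1)) :
    (A1 k i.castSucc ∩ A1 k (Fin.last _)).card = k := by
  rw [A1_cast, A1_last]
  have : (({0} ×ˢ (Finset.univ.erase i)) ∪ ({1} ×ˢ {i})) ∩ ({0} ×ˢ Finset.univ) =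
      (({0} : Finset (Fin (k + 2))) ×ˢ (Finset.univ.erase i)) := by
    ext ⟨a, b⟩
    simp only [Finset.mem_inter, Finset.mem_union, Finset.mem_product, Finset.mem_singleton,
      Finset.mem_erase, Finset.mem_univ, and_true]
    constructor
    · rintro ⟨h | h, h0⟩
      · exact h
      · have := h0.symm.trans h.1
        simp at this
    · intro h; exact ⟨Or.inl h, h.1⟩
  rw [this]; simp

theorem inter_A1 (k : ℕ) (i j : Fin (k + 1)) (hij : i ≠ j) :
    ((A1 k i.castSucc ∩ A1 k j.castSucc).card : ℝ) = k - 1 := by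
  rw [A1_cast, A1_cast]
  have : (({0} ×ˢ (Finset.univ.erase i)) ∪ ({1} ×ˢ {i})) ∩
      (({0} ×ˢ (Finset.univ.erase j)) ∪ ({1} ×ˢ {j})) =
      (({0} : Finset (Fin (k + 2))) ×ˢ ((Finset.univ.erase i).erase j)) := by
    ext ⟨a, b⟩
    simp only [Finset.mem_inter, Finset.mem_union, Finset.mem_product, Finset.mem_singleton,
      Finset.mem_erase, Finset.mem_univ, and_true]
    have h01 : (0 : Fin (k + 2)) ≠ 1 := by simp
    constructor
    · rintro ⟨h | h, h' | h'⟩
      · exact ⟨h.1, h'.2, h.2⟩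
      · exact absurd (h.1.symm.trans h'.1) h01
      · exact absurd (h'.1.symm.trans h.1) h01
      · exact absurd (h.2.symm.trans h'.2) hij
    · rintro ⟨h, h1, h2⟩
      exact ⟨Or.inl ⟨h, h2⟩, Or.inl ⟨h, h1⟩⟩
  rw [this, Finset.card_product, Finset.card_singleton, one_mul,
    Finset.card_erase_of_mem (by simp [hij.symm]), Finset.card_erase_of_mem (by simp)]
  have hk : 1 ≤ k := by
    rcases Nat.eq_zero_or_pos k with h | h
    · subst h
      exact absurd (Fin.ext (by omega)) hij
    · exact h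
  simp only [Finset.card_univ, Fintype.card_fin]
  rw [Nat.add_sub_cancel, Nat.cast_sub hk]
  simp

theorem inter_A0_last (k : ℕ) (i : Fin (k + 1)) :
    (A0 k i.castSucc ∩ A0 k (Fin.last _)).card = 1 := by
  rw [A0_cast, A0_last]
  have : ((({0} : Finset (Fin (k + 2))) ×ˢ ({i} : Finset (Fin (k + 1)))) ∪
      ({i.succ} ×ˢ (Finset.univ.erase i))) ∩ ({0} ×ˢ Finset.univ) =
      (({0} : Finset (Fin (k + 2))) ×ˢ {i}) := by
    ext ⟨a, b⟩
    simp only [Finset.mem_inter, Finset.mem_union, Finset.mem_product, Finset.mem_singleton,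
      Finset.mem_erase, Finset.mem_univ, and_true]
    constructor
    · rintro ⟨h | h, h0⟩
      · exact h
      · exact absurd (h.1.symm.trans h0) (Fin.succ_ne_zero i)
    · intro h; exact ⟨Or.inl h, h.1⟩
  rw [this]; simp

theorem inter_A0 (k : ℕ) (i j : Fin (k + 1)) (hij : i ≠ j) :
    (A0 k i.castSucc ∩ A0 k j.castSucc).card = 0 := by
  rw [A0_cast, A0_cast, Finset.card_eq_zero]
  ext ⟨a, b⟩
  simp only [Finset.mem_inter, Finset.mem_union, Finset.mem_product, Finset.mem_singleton,
    Finset.mem_erase, Finset.mem_univ, and_true, Finset.notMem_empty, iff_false]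
  rintro ⟨h | h, h' | h'⟩
  · exact hij (h.2.symm.trans h'.2)
  · exact Fin.succ_ne_zero j (h'.1.symm.trans h.1)
  · exact Fin.succ_ne_zero i (h.1.symm.trans h'.1)
  · exact hij (Fin.succ_injective _ (h.1.symm.trans h'.1))

/-- The point `(1 - s) v_1 + s x` with `s = 2 / (n - 1)`. -/
theorem near_v1 (k : ℕ) : (fun p => (1 - 2 / ((k : ℝ) + 1)) * v1 (k + 2) p +
    2 / ((k : ℝ) + 1) * starPt (k + 1) p) ∈ TCF (k + 2) := by
  refine mem_TCF (k + 1) (by omega) (A1 k) (card_A1 k) _ ?_
  rintro ⟨⟨i, j⟩, hij⟩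
  simp only at hij
  have hk : (0 : ℝ) < (k : ℝ) + 1 := by positivity
  induction i using Fin.lastCases with
  | last => exact absurd hij (not_lt.2 (Fin.le_last j))
  | cast i =>
    induction j using Fin.lastCases with
    | last =>
      simp only [starPt, v1, if_pos, inter_A1_last]
      push_cast
      field_simp
      ring
    | cast j =>
      have hne : i ≠ j := fun h => by subst h; exact lt_irrefl _ hij
      have hl : j.castSucc ≠ Fin.last (k + 1) := Fin.castSucc_ne_last j
      simp only [starPt, v1, if_neg hl]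
      rw [inter_A1 k i j hne]
      push_cast
      field_simp
      ring

/-- The point `s x` with `s = 2 / (n - 1)`. -/
theorem near_v0 (k : ℕ) : (fun p => 2 / ((k : ℝ) + 1) * starPt (k + 1) p) ∈ TCF (k + 2) := by
  refine mem_TCF (k + 1) (by omega) (A0 k) (card_A0 k) _ ?_
  rintro ⟨⟨i, j⟩, hij⟩
  simp only at hij
  have hk : (0 : ℝ) < (k : ℝ) + 1 := by positivity
  induction i using Fin.lastCases with
  | last => exact absurd hij (not_lt.2 (Fin.le_last j))
  | cast i =>
    induction j using Fin.lastCases with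
    | last =>
      simp only [starPt, if_pos, inter_A0_last]
      push_cast
      field_simp
    | cast j =>
      have hne : i ≠ j := fun h => by subst h; exact lt_irrefl _ hij
      have hl : j.castSucc ≠ Fin.last (k + 1) := Fin.castSucc_ne_last j
      simp only [starPt, if_neg hl]
      rw [inter_A0 k i j hne]
      push_cast
      field_simp
      ring

/-- The star point satisfies every valid inequality of `TCF_n` which is tight at `v_0` or `v_1`. -/
theorem star_mem (k : ℕ) : starPt (k + 1) ∈ Spindle (k + 2) := by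
  rintro c d ⟨-, hval, -⟩ htight
  have hk : (0 : ℝ) < 2 / ((k : ℝ) + 1) := by positivity
  rcases htight with h0 | h1
  · have h := hval _ (near_v0 k)
    have e : form c (v0 (k + 2)) = 0 := by simp [form, v0]
    have e2 : form c (fun p => 2 / ((k : ℝ) + 1) * starPt (k + 1) p) =
        2 / ((k : ℝ) + 1) * form c (starPt (k + 1)) := by
      unfold form
      rw [Finset.mul_sum]
      exact Finset.sum_congr rfl fun p _ => by ring
    rw [e] at h0
    rw [e2, ← h0] at h
    rw [← h0]
    exact nonneg_of_mul_nonneg_right h hk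
  · have h := hval _ (near_v1 k)
    have e2 : form c (fun p => (1 - 2 / ((k : ℝ) + 1)) * v1 (k + 2) p +
        2 / ((k : ℝ) + 1) * starPt (k + 1) p) =
        (1 - 2 / ((k : ℝ) + 1)) * form c (v1 (k + 2)) +
          2 / ((k : ℝ) + 1) * form c (starPt (k + 1)) := by
      unfold form
      rw [Finset.mul_sum, Finset.mul_sum, ← Finset.sum_add_distrib]
      exact Finset.sum_congr rfl fun p _ => by ring
    rw [e2, h1] at h
    have : 2 / ((k : ℝ) + 1) * d ≤ 2 / ((k : ℝ) + 1) * form c (starPt (k + 1)) := by linarith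
    exact le_of_mul_le_mul_left this hk

/-- The test vector `(1, ..., 1, -2)`. -/
def tv (m : ℕ) : Fin (m + 1) → ℝ := Fin.snoc (fun _ => 1) (-2)

theorem X_star_cast (m : ℕ) (i j : Fin m) :
    X (starPt m) i.castSucc j.castSucc = if i = j then 1 else 0 := by
  unfold X starPt
  simp only [Matrix.of_apply, Fin.castSucc_lt_castSucc_iff]
  have hi : i.castSucc ≠ Fin.last m := Fin.castSucc_ne_last i
  have hj : j.castSucc ≠ Fin.last m := Fin.castSucc_ne_last j
  rcases lt_trichotomy i j with h | h | h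
  · rw [dif_pos h, if_neg hj, if_neg h.ne]
  · subst h; simp
  · rw [dif_neg h.not_gt, dif_pos h, if_neg hi, if_neg h.ne']

theorem X_star_last (m : ℕ) (i : Fin m) : X (starPt m) i.castSucc (Fin.last m) = 1 / 2 := by
  unfold X starPt
  simp only [Matrix.of_apply]
  rw [dif_pos (Fin.castSucc_lt_last i)]
  simp

theorem X_star_last' (m : ℕ) (i : Fin m) : X (starPt m) (Fin.last m) i.castSucc = 1 / 2 := by
  unfold X starPt
  simp only [Matrix.of_apply]
  rw [dif_neg (Fin.castSucc_lt_last i).not_gt, dif_pos (Fin.castSucc_lt_last i)]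
  simp

theorem X_star_last_last (m : ℕ) : X (starPt m) (Fin.last m) (Fin.last m) = 1 := by
  unfold X
  simp

theorem quad (m : ℕ) : dotProduct (tv m) ((X (starPt m)).mulVec (tv m)) = 4 - m := by
  have h1 : ∀ i : Fin m, (X (starPt m)).mulVec (tv m) i.castSucc = 0 := by
    intro i
    unfold Matrix.mulVec dotProduct
    rw [Fin.sum_univ_castSucc]
    simp only [X_star_cast, X_star_last, tv, Fin.snoc_castSucc, Fin.snoc_last]
    simp
  have h2 : (X (starPt m)).mulVec (tv m) (Fin.last m) = m / 2 - 2 := by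
    unfold Matrix.mulVec dotProduct
    rw [Fin.sum_univ_castSucc]
    simp only [X_star_last', X_star_last_last, tv, Fin.snoc_castSucc, Fin.snoc_last]
    simp
    ring
  unfold dotProduct
  rw [Fin.sum_univ_castSucc]
  simp only [h1, h2, mul_zero, Finset.sum_const_zero, zero_add]
  simp only [tv, Fin.snoc_last]
  ring

/-- For every `n ≥ 6` the polytope `TCF_n(v_0, v_1)` is not contained in `PSD_n`. -/
theorem result : ∀ n : ℕ, 6 ≤ n → ¬ (Spindle n ⊆ PSD n) := by
  intro n hn hsub
  obtain ⟨k, rfl⟩ : ∃ k, n = k + 2 := ⟨n - 2, by omega⟩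
  have h := hsub (star_mem k)
  have hq := h.dotProduct_mulVec_nonneg (tv (k + 1))
  simp only [star_trivial] at hq
  rw [quad] at hq
  have : (4 : ℝ) ≤ k := by exact_mod_cast (by omega : 4 ≤ k)
  push_cast at hq
  linarith

end Pool.Agent.Results.MP_db83b6_pr.SpindleNotPSD
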